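import Mathlib

/-! Groups whose two-generator subgroups are finite regular `p`-groups: definitions. -/

set_option autoImplicit false

open scoped commutatorElement

namespace Pool.Agent.H59.RP

universe u

/-- Hall's condition: `(xy)^p = x^p y^p d_1^p ⋯ d_m^p` with `d_i` in the commutator subgroup of `⟨x, y⟩` -/
def Reg (p : ℕ) {G : Type u} [Group G] (x y : G) : Prop :=
  ∃ l : List G, (∀ d ∈ l, d ∈ ⁅Subgroup.closure {x, y}, Subgroup.closure {x, y}⁆) ∧
    (x * y) ^ p = x ^ p * y ^ p * (l.map (fun d => d ^ p)).prod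

/-- any two elements generate a finite regular `p`-group -/
def RegPairs (p : ℕ) (G : Type u) [Group G] : Prop :=
  ∀ x y : G, Finite (Subgroup.closure {x, y}) ∧ IsPGroup p (Subgroup.closure {x, y}) ∧ Reg p x y

/-- the elements with `g ^ (p ^ i) = 1` are closed under products -/
def Closed (p : ℕ) (G : Type u) [Group G] : Prop :=
  ∀ (i : ℕ) (x y : G), x ^ p ^ i = 1 → y ^ p ^ i = 1 → (x * y) ^ p ^ i = 1

/-- every finitely generated subgroup is finite -/
def LF (G : Type u) [Group G] : Prop :=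
  ∀ s : Finset G, Finite (Subgroup.closure (s : Set G))

/-- the subgroup of the elements with `x ^ p = 1` -/
def Om (p : ℕ) {G : Type u} [Group G] (h : ∀ x y : G, x ^ p = 1 → y ^ p = 1 → (x * y) ^ p = 1) :
    Subgroup G where
  carrier := {x | x ^ p = 1}
  mul_mem' := fun {x y} hx hy => h x y hx hy
  one_mem' := one_pow p
  inv_mem' := fun {x} hx => by
    show x⁻¹ ^ p = 1
    rw [inv_pow, show x ^ p = 1 from hx, inv_one]

instance Om_normal (p : ℕ) {G : Type u} [Group G]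
    (h : ∀ x y : G, x ^ p = 1 → y ^ p = 1 → (x * y) ^ p = 1) : (Om p h).Normal where
  conj_mem := fun x hx g => by
    show (g * x * g⁻¹) ^ p = 1
    rw [conj_pow, show x ^ p = 1 from hx, mul_one, mul_inv_cancel]

/-- `(xM)^(p^i) = 1` in `G / Om` iff `x^(p^(i+1)) = 1` -/
theorem pow_om {p : ℕ} {G : Type u} [Group G]
    (h : ∀ x y : G, x ^ p = 1 → y ^ p = 1 → (x * y) ^ p = 1) (x : G) (i : ℕ) :
    (QuotientGroup.mk x : G ⧸ Om p h) ^ p ^ i = 1 ↔ x ^ p ^ (i + 1) = 1 := by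
  rw [← QuotientGroup.mk_pow, QuotientGroup.eq_one_iff]
  show (x ^ p ^ i) ^ p = 1 ↔ _
  rw [← pow_mul, ← pow_succ]

/-- the order condition on `⁅u, u ^ x⁆`, `u = x⁻¹ g⁻¹ x g` -/
def Small (p : ℕ) (G : Type u) [Group G] : Prop :=
  ∀ (n : ℕ) (x g : G), x ^ p ^ (n + 1) = 1 → g ^ p ^ (n + 1) = 1 →
    ⁅x⁻¹ * g⁻¹ * x * g, x⁻¹ * (x⁻¹ * g⁻¹ * x * g) * x⁆ ^ p ^ n = 1

end Pool.Agent.H59.RP
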