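import Pool.Agent.H59.RP.Defs

/-! Hall's theorem: elements of order `p` are closed under products. -/

set_option autoImplicit false

open scoped commutatorElement

namespace Pool.Agent.H59.RP

universe u

variable {G : Type u} [Group G]

/-- a group generated by two elements which commute modulo a normal subgroup is commutative modulo it -/
theorem comm_mod (a b : G) (C : Subgroup (Subgroup.closure {a, b} : Subgroup G)) [hC : C.Normal]
    (ha : a ∈ Subgroup.closure {a, b}) (hb : b ∈ Subgroup.closure {a, b})
    (hc : (⟨a, ha⟩ : (Subgroup.closure {a, b} : Subgroup G))⁻¹ * ((⟨b, hb⟩ : (Subgroup.closure {a, b} : Subgroup G))⁻¹ *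
      ⟨a, ha⟩ * ⟨b, hb⟩) ∈ C) :
    ∀ u v : (Subgroup.closure {a, b} : Subgroup G),
      (QuotientGroup.mk u : (Subgroup.closure {a, b} : Subgroup G) ⧸ C) * QuotientGroup.mk v =
        QuotientGroup.mk v * QuotientGroup.mk u := by
  set a' : (Subgroup.closure {a, b} : Subgroup G) := ⟨a, ha⟩ with ha'
  set b' : (Subgroup.closure {a, b} : Subgroup G) := ⟨b, hb⟩ with hb'
  have hab : (QuotientGroup.mk a' : (Subgroup.closure {a, b} : Subgroup G) ⧸ C) * QuotientGroup.mk b' =
      QuotientGroup.mk b' * QuotientGroup.mk a' := by
    have h1 : (QuotientGroup.mk (a'⁻¹ * (b'⁻¹ * a' * b')) : (Subgroup.closure {a, b} : Subgroup G) ⧸ C) = 1 :=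
      (QuotientGroup.eq_one_iff _).2 hc
    have h2 : (QuotientGroup.mk a' : (Subgroup.closure {a, b} : Subgroup G) ⧸ C) * QuotientGroup.mk b' =
        QuotientGroup.mk b' * QuotientGroup.mk a' * QuotientGroup.mk (a'⁻¹ * (b'⁻¹ * a' * b')) := by
      rw [← QuotientGroup.mk_mul, ← QuotientGroup.mk_mul, ← QuotientGroup.mk_mul]
      congr 1
      group
    rw [h2, h1, mul_one]
  have cmul : ∀ x y z : (Subgroup.closure {a, b} : Subgroup G) ⧸ C, x * y = y * x → x * z = z * x →
      x * (y * z) = (y * z) * x := by
    intro x y z h1 h2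
    rw [← mul_assoc, h1, mul_assoc, h2, mul_assoc]
  have cinv : ∀ x y : (Subgroup.closure {a, b} : Subgroup G) ⧸ C, x * y = y * x → x * y⁻¹ = y⁻¹ * x := by
    intro x y h1
    rw [eq_inv_mul_iff_mul_eq, ← mul_assoc, ← h1, mul_assoc, mul_inv_cancel, mul_one]
  have step : ∀ x : (Subgroup.closure {a, b} : Subgroup G) ⧸ C, x * QuotientGroup.mk a' = QuotientGroup.mk a' * x →
      x * QuotientGroup.mk b' = QuotientGroup.mk b' * x →
      ∀ v : (Subgroup.closure {a, b} : Subgroup G), x * QuotientGroup.mk v = QuotientGroup.mk v * x := by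
    intro x h1 h2 v
    obtain ⟨v, hv⟩ := v
    refine Subgroup.closure_induction (p := fun z hz => x * (QuotientGroup.mk (⟨z, hz⟩ :
      (Subgroup.closure {a, b} : Subgroup G)) : (Subgroup.closure {a, b} : Subgroup G) ⧸ C) =
      QuotientGroup.mk (⟨z, hz⟩ : (Subgroup.closure {a, b} : Subgroup G)) * x) ?_ ?_ ?_ ?_ hv
    · intro z hz
      rcases hz with rfl | hz
      · exact h1
      · rw [Set.mem_singleton_iff] at hz
        subst hz
        exact h2
    · show x * (QuotientGroup.mk (1 : (Subgroup.closure {a, b} : Subgroup G))) = QuotientGroup.mk (1 : _) * x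
      rw [QuotientGroup.mk_one, mul_one, one_mul]
    · intro y z hy hz h3 h4
      exact cmul x _ _ h3 h4
    · intro y hy h3
      exact cinv x _ h3
  intro u v
  have hu1 : (QuotientGroup.mk u : (Subgroup.closure {a, b} : Subgroup G) ⧸ C) * QuotientGroup.mk a' =
      QuotientGroup.mk a' * QuotientGroup.mk u := (step (QuotientGroup.mk a') rfl hab u).symm
  have hu2 : (QuotientGroup.mk u : (Subgroup.closure {a, b} : Subgroup G) ⧸ C) * QuotientGroup.mk b' =
      QuotientGroup.mk b' * QuotientGroup.mk u := (step (QuotientGroup.mk b') hab.symm rfl u).symm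
  exact step _ hu1 hu2 v

/-- Proof (Hall). Induction on `Nat.card K`, `K = ⟨a, b⟩` (strong induction over all pairs of `G`, `G` fixed). So if `x, y ∈ K`,
`x ^ p = y ^ p = 1` and `⟨x, y⟩ ≠ K`, then `(x * y) ^ p = 1` (IH; `⟨x, y⟩ < K`, `K` finite). If `⟨a⟩ = K`, `a` and `b` commute:
done. Otherwise let `M` be a coatom of `Subgroup K` containing `a`; it is normal in `K`
(`Subgroup.NormalizerCondition.normal_of_coatom`, `K` is a finite `p`-group: `IsPGroup.isNilpotent`), so it contains
`b⁻¹ a b`, and by IH (`⟨x, y⟩ ≤ M < K` for `x, y ∈ M`) the elements `x ∈ M` with `x ^ p = 1` are closed under products. So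
`c = a⁻¹ (b⁻¹ a b)` has `c ^ p = 1`, `c ∈ M`; the normal closure `C` of `c` in `K` lies in `M`, and is generated by the conjugates of
`c`; so `z ^ p = 1` for all `z ∈ C`. `K ⧸ C` is generated by two commuting elements, so it is commutative and `⁅K, K⁆ ≤ C`. Now
`(a b) ^ p = a ^ p b ^ p ∏ d_i ^ p = 1`. -/
theorem mul_one' {p : ℕ} (hp : p.Prime) (hG : RegPairs p G) (x y : G) (hx : x ^ p = 1)
    (hy : y ^ p = 1) : (x * y) ^ p = 1 := by
  haveI := Fact.mk hp
  have key : ∀ n : ℕ, ∀ a b : G, Nat.card (Subgroup.closure {a, b} : Subgroup G) = n → a ^ p = 1 → b ^ p = 1 →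
      (a * b) ^ p = 1 := by
    intro n
    induction n using Nat.strong_induction_on with
    | _ n ih =>
      intro a b hn ha hb
      obtain ⟨hfin, hpg, hreg⟩ := hG a b
      haveI : Finite (Subgroup.closure {a, b} : Subgroup G) := hfin
      have haK : a ∈ (Subgroup.closure {a, b} : Subgroup G) := Subgroup.subset_closure (by simp)
      have hbK : b ∈ (Subgroup.closure {a, b} : Subgroup G) := Subgroup.subset_closure (by simp)
      set a' : (Subgroup.closure {a, b} : Subgroup G) := ⟨a, haK⟩ with ha'
      set b' : (Subgroup.closure {a, b} : Subgroup G) := ⟨b, hbK⟩ with hb'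
      have ha'p : a' ^ p = 1 := Subtype.ext ha
      have hb'p : b' ^ p = 1 := Subtype.ext hb
      rcases eq_top_or_exists_le_coatom (Subgroup.zpowers a') with htop | ⟨M, hM, hle⟩
      · have h1 : b' ∈ Subgroup.zpowers a' := by rw [htop]; exact Subgroup.mem_top _
        obtain ⟨k, hk⟩ := Subgroup.mem_zpowers_iff.1 h1
        have h2 : b = a ^ k := by
          have := congrArg Subtype.val hk
          simpa [ha', hb'] using this.symm
        have h3 : Commute a b := by
          rw [h2]
          exact (Commute.refl a).zpow_right k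
        rw [h3.mul_pow, ha, hb, mul_one]
      · have hnil : Group.IsNilpotent (Subgroup.closure {a, b} : Subgroup G) := hpg.isNilpotent
        haveI : M.Normal := Subgroup.NormalizerCondition.normal_of_coatom M
          (Group.normalizerCondition_of_isNilpotent) hM
        -- products of elements of order p in M
        have hMp : ∀ x y : (Subgroup.closure {a, b} : Subgroup G), x ∈ M → y ∈ M → x ^ p = 1 → y ^ p = 1 →
            (x * y) ^ p = 1 := by
          intro x y hxM hyM hxp hyp
          have hle1 : Subgroup.closure {(x : G), (y : G)} ≤ M.map (Subgroup.closure {a, b} : Subgroup G).subtype := by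
            rw [Subgroup.closure_le]
            rintro z (rfl | rfl)
            · exact ⟨x, hxM, rfl⟩
            · exact ⟨y, hyM, rfl⟩
          have hle2 : M.map (Subgroup.closure {a, b} : Subgroup G).subtype ≤ Subgroup.closure {a, b} := by
            rintro z ⟨w, hw, rfl⟩
            exact w.2
          have hlt : Subgroup.closure {(x : G), (y : G)} < Subgroup.closure {a, b} := by
            refine lt_of_le_not_ge (hle1.trans hle2) ?_
            intro h1
            apply hM.1
            rw [eq_top_iff]
            intro z _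
            obtain ⟨w, hw, hwz⟩ := (h1.trans hle1) z.2
            have : w = z := Subtype.ext hwz
            rw [← this]
            exact hw
          have hcard : Nat.card (Subgroup.closure {(x : G), (y : G)} : Subgroup G) < n := by
            rw [← hn]
            exact Set.ncard_lt_ncard (SetLike.coe_ssubset_coe.2 hlt) (Set.toFinite _)
          have h2 := ih _ hcard (x : G) (y : G) rfl (by
            have := congrArg Subtype.val hxp
            simpa using this) (by
            have := congrArg Subtype.val hyp
            simpa using this)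
          exact Subtype.ext (by simpa using h2)
        have haM : a' ∈ M := hle (Subgroup.mem_zpowers a')
        have hconj : b'⁻¹ * a' * b' ∈ M := by
          have := (inferInstance : M.Normal).conj_mem a' haM b'⁻¹
          rwa [inv_inv] at this
        have hcM : a'⁻¹ * (b'⁻¹ * a' * b') ∈ M := M.mul_mem (M.inv_mem haM) hconj
        have hconjp : (b'⁻¹ * a' * b') ^ p = 1 := by
          have := conj_pow (a := b'⁻¹) (b := a') (i := p)
          rw [inv_inv] at this
          rw [this, ha'p]
          group
        have hcp : (a'⁻¹ * (b'⁻¹ * a' * b')) ^ p = 1 :=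
          hMp _ _ (M.inv_mem haM) hconj (by rw [inv_pow, ha'p, inv_one]) hconjp
        set C : Subgroup (Subgroup.closure {a, b} : Subgroup G) :=
          Subgroup.normalClosure {a'⁻¹ * (b'⁻¹ * a' * b')} with hC
        have hCM : ∀ z ∈ C, z ∈ M ∧ z ^ p = 1 := by
          intro z hz
          rw [hC, Subgroup.normalClosure] at hz
          refine Subgroup.closure_induction (p := fun z _ => z ∈ M ∧ z ^ p = 1) ?_ ?_ ?_ ?_ hz
          · intro w hw
            obtain ⟨s, hs, hsw⟩ := Group.mem_conjugatesOfSet_iff.1 hw
            rw [Set.mem_singleton_iff] at hs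
            obtain ⟨g, hg⟩ := isConj_iff.1 hsw
            rw [← hg, hs]
            refine ⟨(inferInstance : M.Normal).conj_mem _ hcM g, ?_⟩
            rw [conj_pow, hcp]
            group
          · exact ⟨M.one_mem, one_pow p⟩
          · intro v w _ _ hv hw
            exact ⟨M.mul_mem hv.1 hw.1, hMp v w hv.1 hw.1 hv.2 hw.2⟩
          · intro v _ hv
            exact ⟨M.inv_mem hv.1, by rw [inv_pow, hv.2, inv_one]⟩
        have hcC : a'⁻¹ * (b'⁻¹ * a' * b') ∈ C := Subgroup.subset_normalClosure rfl
        have hcomm := comm_mod a b C haK hbK hcC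
        have hD : ⁅Subgroup.closure {a, b}, Subgroup.closure {a, b}⁆ ≤
            C.map (Subgroup.closure {a, b} : Subgroup G).subtype := by
          rw [Subgroup.commutator_le]
          intro u hu v hv
          refine ⟨⁅(⟨u, hu⟩ : (Subgroup.closure {a, b} : Subgroup G)), ⟨v, hv⟩⁆, ?_, rfl⟩
          show ⁅(⟨u, hu⟩ : (Subgroup.closure {a, b} : Subgroup G)), ⟨v, hv⟩⁆ ∈ C
          rw [← QuotientGroup.eq_one_iff, commutatorElement_def, QuotientGroup.mk_mul, QuotientGroup.mk_mul,
            QuotientGroup.mk_mul, hcomm ⟨u, hu⟩ ⟨v, hv⟩, QuotientGroup.mk_inv, QuotientGroup.mk_inv]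
          group
        obtain ⟨l, hl, hprod⟩ := hreg
        rw [hprod, ha, hb]
        have hone : (l.map (fun d => d ^ p)).prod = 1 := by
          apply List.prod_eq_one
          intro w hw
          rw [List.mem_map] at hw
          obtain ⟨d, hd, rfl⟩ := hw
          obtain ⟨e, he, hed⟩ := hD (hl d hd)
          rw [← hed]
          have := congrArg Subtype.val (hCM e he).2
          simpa using this
        rw [hone, mul_one, mul_one]
  exact key _ x y rfl hx hy

end Pool.Agent.H59.RP
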