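import Pool.Agent.H59.RP.Defs

/-! The condition on pairs passes to the quotient. -/

set_option autoImplicit false

open scoped commutatorElement

namespace Pool.Agent.H59.RP

universe u

variable {G : Type u} [Group G]

/-- Proof: `⟨mk x, mk y⟩` is the image of `⟨x, y⟩` (`MonoidHom.map_closure`, `Set.image_pair`), `Subgroup.map_commutator`,
`List.map`. -/
theorem reg_quot {p : ℕ} (hG : RegPairs p G) (M : Subgroup G) [M.Normal] : RegPairs p (G ⧸ M) := by
  intro x' y'
  obtain ⟨x, rfl⟩ := QuotientGroup.mk'_surjective M x'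
  obtain ⟨y, rfl⟩ := QuotientGroup.mk'_surjective M y'
  obtain ⟨hfin, hp, l, hl, heq⟩ := hG x y
  have hmap : (Subgroup.closure {x, y}).map (QuotientGroup.mk' M) =
      Subgroup.closure {QuotientGroup.mk' M x, QuotientGroup.mk' M y} := by
    rw [MonoidHom.map_closure, Set.image_pair]
  refine ⟨?_, ?_, l.map (QuotientGroup.mk' M), ?_, ?_⟩
  · rw [← hmap]
    exact Finite.of_surjective ((QuotientGroup.mk' M).subgroupMap (Subgroup.closure {x, y}))
      ((QuotientGroup.mk' M).subgroupMap_surjective _)
  · rw [← hmap]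
    exact hp.map _
  · intro d' hd'
    obtain ⟨d, hd, rfl⟩ := List.mem_map.1 hd'
    rw [← hmap, ← Subgroup.map_commutator]
    exact Subgroup.mem_map_of_mem _ (hl d hd)
  · rw [← map_mul, ← map_pow, heq, map_mul, map_mul, map_pow, map_pow, map_list_prod,
      List.map_map, List.map_map]
    have hfun : (QuotientGroup.mk' M : G → G ⧸ M) ∘ (fun d : G => d ^ p) =
        (fun d : G ⧸ M => d ^ p) ∘ (QuotientGroup.mk' M : G → G ⧸ M) := by
      funext d
      simp only [Function.comp_apply, map_pow]
    rw [hfun]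

end Pool.Agent.H59.RP
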