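import Pool.Agent.H59.RP.One
import Pool.Agent.H59.RP.Quo
import Pool.Agent.H59.PC.Top

/-! The theorems. -/

set_option autoImplicit false

open scoped commutatorElement

namespace Pool.Agent.H59.RP

universe u

theorem closed_aux {p : ℕ} (hp : p.Prime) (i : ℕ) :
    ∀ (G : Type u) [Group G], RegPairs p G → ∀ x y : G, x ^ p ^ i = 1 → y ^ p ^ i = 1 →
      (x * y) ^ p ^ i = 1 := by
  induction i with
  | zero =>
    intro G _ _ x y hx hy
    rw [pow_zero, pow_one] at hx hy ⊢
    rw [hx, hy, mul_one]
  | succ i ih =>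
    intro G _ hG x y hx hy
    have h1 := ih (G ⧸ Om p (mul_one' hp hG)) (reg_quot hG _) (QuotientGroup.mk x)
      (QuotientGroup.mk y) ((pow_om _ x i).2 hx) ((pow_om _ y i).2 hy)
    rw [← QuotientGroup.mk_mul] at h1
    exact (pow_om _ _ i).1 h1

/-- Part 1. -/
theorem closed {p : ℕ} (hp : p.Prime) {G : Type u} [Group G] (hG : RegPairs p G) : Closed p G :=
  fun i x y hx hy => closed_aux hp i G hG x y hx hy

theorem Closed.one {p : ℕ} {G : Type u} [Group G] (h : Closed p G) (x y : G) (hx : x ^ p = 1)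
    (hy : y ^ p = 1) : (x * y) ^ p = 1 := by
  have h1 := h 1 x y
  rw [pow_one] at h1
  exact h1 hx hy

theorem Closed.quot {p : ℕ} {G : Type u} [Group G] (h : Closed p G) :
    Closed p (G ⧸ Om p h.one) := by
  intro i x y hx hy
  induction x using QuotientGroup.induction_on with
  | H x =>
    induction y using QuotientGroup.induction_on with
    | H y =>
      rw [← QuotientGroup.mk_mul]
      rw [pow_om] at hx hy ⊢
      exact h (i + 1) x y hx hy

/-- A class `X` of groups with `Closed`, closed under the quotient by `Om`, with `Om` locally finite. -/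
theorem lift {p : ℕ} (X : ∀ (G : Type u) [Group G], Prop)
    (hR : ∀ (G : Type u) [Group G], X G → Closed p G)
    (hQ : ∀ (G : Type u) [Group G] (h : X G), X (G ⧸ Om p (hR G h).one))
    (hO : ∀ (G : Type u) [Group G] (h : X G), LF (Om p (hR G h).one)) (e : ℕ) :
    ∀ (G : Type u) [Group G], X G → ∀ s : Finset G, (∀ x ∈ s, x ^ p ^ e = 1) →
      Finite (Subgroup.closure (s : Set G)) := by
  classical
  induction e with
  | zero =>
    intro G _ _ s hs
    have h1 : Subgroup.closure (s : Set G) = ⊥ := by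
      rw [Subgroup.closure_eq_bot_iff]
      intro x hx
      have h2 := hs x hx
      rw [pow_zero, pow_one] at h2
      exact h2
    rw [h1]
    infer_instance
  | succ e ih =>
    intro G _ hG s hs
    refine Pool.Agent.H59.PC.schmidt (Om p (hR G hG).one) (hO G hG) s ?_
    have h1 := ih (G ⧸ Om p (hR G hG).one) (hQ G hG)
      (s.image (QuotientGroup.mk : G → G ⧸ Om p (hR G hG).one)) (by
        intro x hx
        obtain ⟨y, hy, rfl⟩ := Finset.mem_image.1 hx
        exact (pow_om _ y e).2 (hs y hy))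
    rw [Finset.coe_image] at h1
    exact h1

theorem lift' {p : ℕ} (X : ∀ (G : Type u) [Group G], Prop)
    (hR : ∀ (G : Type u) [Group G], X G → Closed p G)
    (hQ : ∀ (G : Type u) [Group G] (h : X G), X (G ⧸ Om p (hR G h).one))
    (hO : ∀ (G : Type u) [Group G] (h : X G), LF (Om p (hR G h).one))
    (G : Type u) [Group G] (hX : X G) (hP : IsPGroup p G) : LF G := by
  intro s
  choose n hn using hP
  refine lift X hR hQ hO (s.sup n) G hX s fun x hx => ?_
  obtain ⟨c, hc⟩ := pow_dvd_pow p (Finset.le_sup (f := n) hx)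
  rw [hc, pow_mul, hn, one_pow]

/-- Part 2: `Closed` and `Small` imply locally finite. -/
theorem small_lf {p : ℕ} (hp : p.Prime) (h2 : p ≠ 2) {G : Type u} [Group G] (hP : IsPGroup p G)
    (hC : Closed p G) (hS : Small p G) : LF G := by
  refine lift' (p := p) (fun G _ => Closed p G ∧ Small p G) (fun _ _ h => h.1) ?_ ?_ G ⟨hC, hS⟩ hP
  · intro G _ h
    refine ⟨h.1.quot, ?_⟩
    intro n x g hx hg
    induction x using QuotientGroup.induction_on with
    | H x =>
      induction g using QuotientGroup.induction_on with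
      | H g =>
        rw [pow_om] at hx hg
        have h3 := h.2 (n + 1) x g hx hg
        rw [← pow_om h.1.one] at h3
        exact h3
  · intro G _ h s
    refine Pool.Agent.H76.MB.main_LF hp h2 ?_ ?_ s
    · intro x
      refine ⟨1, Subtype.ext ?_⟩
      rw [pow_one]
      exact x.2
    · intro x g
      have hx : (x : G) ^ p ^ (0 + 1) = 1 := by
        rw [Nat.zero_add, pow_one]
        exact x.2
      have hg : (g : G) ^ p ^ (0 + 1) = 1 := by
        rw [Nat.zero_add, pow_one]
        exact g.2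
      have h3 := h.2 0 x g hx hg
      rw [pow_zero, pow_one, commutatorElement_eq_one_iff_mul_comm] at h3
      exact Subtype.ext h3

theorem closed_closure {p : ℕ} {G : Type u} [Group G] (hC : Closed p G) (n : ℕ) (S : Set G)
    (hS : ∀ x ∈ S, x ^ p ^ n = 1) (z : G) (hz : z ∈ Subgroup.closure S) : z ^ p ^ n = 1 := by
  induction hz using Subgroup.closure_induction with
  | mem x hx => exact hS x hx
  | one => exact one_pow _
  | mul x y _ _ hx hy => exact hC n x y hx hy
  | inv x _ hx => rw [inv_pow, hx, inv_one]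

/-- Part 3: `⁅u, u ^ x⁆ ∈ K ^ p`, `K = ⟨x, g⟩`, implies `Small`. -/
theorem small_of {p : ℕ} {G : Type u} [Group G] (hC : Closed p G)
    (h : ∀ x g : G, ⁅x⁻¹ * g⁻¹ * x * g, x⁻¹ * (x⁻¹ * g⁻¹ * x * g) * x⁆ ∈
      Subgroup.closure {y | ∃ z ∈ Subgroup.closure {x, g}, y = z ^ p}) : Small p G := by
  intro n x g hx hg
  refine closed_closure hC n _ ?_ _ (h x g)
  rintro _ ⟨z, hz, rfl⟩
  have h1 := closed_closure hC (n + 1) {x, g} (by
    rintro y (rfl | rfl)
    · exact hx
    · exact hg) z hz
  rw [← pow_mul, ← pow_succ']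
  exact h1

/-- Part 4. -/
theorem reduce {p : ℕ} (hB : ∀ (G : Type u) [Group G], (∀ g : G, g ^ p = 1) →
    (∀ x y : G, Finite (Subgroup.closure {x, y})) → LF G) {G : Type u} [Group G] (hP : IsPGroup p G)
    (hC : Closed p G) (hF : ∀ x y : G, Finite (Subgroup.closure {x, y})) : LF G := by
  refine lift' (p := p) (fun G _ => Closed p G ∧ ∀ x y : G, Finite (Subgroup.closure {x, y}))
    (fun _ _ h => h.1) ?_ ?_ G ⟨hC, hF⟩ hP
  · intro G _ h
    refine ⟨h.1.quot, ?_⟩
    intro x y
    induction x using QuotientGroup.induction_on with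
    | H x =>
      induction y using QuotientGroup.induction_on with
      | H y =>
        have h3 : Subgroup.closure {(QuotientGroup.mk x : G ⧸ Om p h.1.one), QuotientGroup.mk y} =
            (Subgroup.closure {x, y}).map (QuotientGroup.mk' (Om p h.1.one)) := by
          rw [MonoidHom.map_closure, Set.image_pair]
          rfl
        rw [h3]
        have := h.2 x y
        exact Finite.of_surjective _ (MonoidHom.subgroupMap_surjective _ _)
  · intro G _ h
    refine hB _ (fun g => Subtype.ext g.2) ?_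
    intro x y
    have := h.2 x y
    have h3 : (Subgroup.closure {x, y}).map (Om p h.1.one).subtype =
        Subgroup.closure {(x : G), (y : G)} := by
      rw [MonoidHom.map_closure, Set.image_pair]
      rfl
    refine Finite.of_injective
      (fun z : Subgroup.closure {x, y} => (⟨((z : Om p h.1.one) : G), ?_⟩ :
        Subgroup.closure {(x : G), (y : G)})) ?_
    · rw [← h3]
      exact ⟨_, z.2, rfl⟩
    · intro z w hzw
      have h4 := congrArg (fun z : Subgroup.closure {(x : G), (y : G)} => (z : G)) hzw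
      exact Subtype.ext (Subtype.ext h4)

theorem three {H : Type u} [Group H] (h : ∀ g : H, g ^ 3 = 1) (x y : H) :
    Commute x (y⁻¹ * x * y) := by
  have e1 : x * y * x = y⁻¹ * x⁻¹ * y⁻¹ := by
    have h1 := h (y * x)
    have h2 : y * (x * y * x) * (y * x) = 1 := by
      rw [← h1]
      simp only [pow_succ, pow_zero, one_mul]
      group
    have h3 : x * y * x = y⁻¹ * (y * x)⁻¹ := by
      rw [eq_comm, inv_mul_eq_iff_eq_mul, eq_comm]
      exact eq_inv_of_mul_eq_one_left h2
    rw [h3, mul_inv_rev, mul_assoc]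
  have e2 : x * y⁻¹ * x = y * x⁻¹ * y := by
    have h1 := h (y⁻¹ * x)
    have h2 : y⁻¹ * (x * y⁻¹ * x) * (y⁻¹ * x) = 1 := by
      rw [← h1]
      simp only [pow_succ, pow_zero, one_mul]
      group
    have h3 : x * y⁻¹ * x = y * (y⁻¹ * x)⁻¹ := by
      rw [eq_comm, ← inv_inv y, inv_mul_eq_iff_eq_mul, inv_inv, eq_comm]
      exact eq_inv_of_mul_eq_one_left h2
    rw [h3, mul_inv_rev, inv_inv, mul_assoc]
  have e3 : y * y = y⁻¹ := by
    rw [eq_inv_iff_mul_eq_one, ← h y]
    simp only [pow_succ, pow_zero, one_mul]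
  show x * (y⁻¹ * x * y) = y⁻¹ * x * y * x
  calc x * (y⁻¹ * x * y) = (x * y⁻¹ * x) * y := by group
    _ = y * x⁻¹ * (y * y) := by rw [e2]; group
    _ = y * x⁻¹ * y⁻¹ := by rw [e3]
    _ = y⁻¹ * y⁻¹ * x⁻¹ * y⁻¹ := by
        congr 2
        rw [← mul_inv_rev, e3, inv_inv]
    _ = y⁻¹ * (x * y * x) := by rw [e1]; group
    _ = y⁻¹ * x * y * x := by group

/-- Part 2 for `p = 3`. -/
theorem three_lf {G : Type u} [Group G] (hP : IsPGroup 3 G) (hC : Closed 3 G) : LF G := by
  refine lift' (p := 3) (fun G _ => Closed 3 G) (fun _ _ h => h) (fun _ _ h => h.quot) ?_ G hC hP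
  intro G _ h s
  have he : ∀ g : Om 3 h.one, g ^ 3 = 1 := fun g => Subtype.ext g.2
  refine Pool.Agent.H76.MB.main_LF Nat.prime_three (by norm_num) ?_ ?_ s
  · intro x
    refine ⟨1, ?_⟩
    rw [pow_one]
    exact he x
  · intro x g
    exact three he _ _

end Pool.Agent.H59.RP
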